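import Pool.Agent.Run7.h527.TP.M
import Pool.Agent.Results.MP_a57f33_nt.AlmostAllArguments

/-!
# MP_a57f33_nt: relations between motivic multiple zeta values at ALL arguments near aliquot sums, cototients and arithmetic
# derivatives

A pattern in `k` variables is a nonempty list of letters `b + u_1 s_1 + ... + u_k s_k`; at a tuple `s` of natural numbers
it gives an index. A lift of the real multiple zeta values is a function `Y` from the indices to a commutative `ℚ`-algebra
with a homomorphism to `ℝ` which maps `Y(u)` to `ζ(u)`, for example the motivic multiple zeta values. The tuple `s` is bad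
(`NotConsequence`) if a polynomial relation of degree at most `D` with integer coefficients at most `H` holds between the
values `Y(w_i(s))` of a lift, but fails for a family `Z` with the stuffle product and (1) Euler's formula, if all constant
first letters of each pattern are equal and even, (2) and all relations between the real multiple zeta values of the fronts,
in general. The stuffle product and Euler's formula are consequences of the regularized double shuffle relations.

Let `F_1, …, F_k` be functions such as the sum of the proper divisors, the cototient `m - φ(m)`, the arithmetic derivative, or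
a positive combination `α m + β f(m)`, with `f = σ`, `φ` or the arithmetic derivative. Let `k (θ + 1 - τ) < 1`, `τ ≤ 1`. For all
tuples `m ∈ [1, N] ^ k` whose entries have two prime factors `p ≠ q`, not dividing `m_i / (p q) ≥ 2`, with `p q ≥ m_i^τ`, but at
most `N^(k - δ)` of them, NO tuple `s` with `|s_i - F_i(m_i)| ≤ F_i(m_i)^θ` and `T ≤ s_i ≤ κ T` is bad, for `H = C^T`. In one
variable, for every `ε > 0` there is `θ > 0` such that this holds for ALL `m ≤ N` but `ε N`.

Proof. Write `m = j p q`. Then `F(m) = a p q + b (p + q) + c` with integers `a ≠ 0`, `b`, `c` which depend on `j` only, and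
`(a p + b) (a q + b) = a F(m) + b² - a c`. So for given `j` every value is taken for at most `N^ε` pairs `p`, `q` (the tool
`Run7/h527/TP`), and by the starting theorem `AlmostAllArguments` the bad tuples in `[N, κ N] ^ k` are at most `K N^(k - 1)`.
For small `τ` all but `ε N` integers have two such primes, by the second moment of the number of the prime factors in
`(N^(τ / 2), N^(1 / 8))`. The starting library treats multiplicative `F_i`, on other pages.
-/

set_option autoImplicit false

namespace Pool.Agent.Results.MP_a57f33_nt.AliquotSums

open Pool.Agent.Results.MP_03df5c_nt.AlmostAllArguments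
  (mzv Admissible Letter index AdmissiblePattern fronts EvenFront HasStuffle Transfers)
open AlmostAllArguments (Lift EulerFormula NotConsequence)
open Run7.h527.TP (Bil Near NearOne FewTuples near near_one aliquot cototient deriv sig comb)

theorem mono {k r : ℕ} (w : Fin r → List (Letter k)) (D : ℕ)
    (F : ∀ (A : Type) [CommRing A] [Algebra ℚ A], (List ℕ → A) → Prop) (H H' : ℝ) (s : Fin k → ℕ) (h : H ≤ H')
    (hB : NotConsequence w D F H s) : NotConsequence w D F H' s := by
  obtain ⟨M, i1, i2, Y, A, i3, i4, Z, h1, h2, h3, P, h4, h5, h6⟩ := hB
  exact ⟨M, i1, i2, Y, A, i3, i4, Z, h1, h2, h3, P, h4, fun m => (h5 m).trans h, h6⟩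

/-- **Theorem.** (1) Let `w_1, ..., w_r` be admissible patterns in `k ≥ 1` variables, `D`, `κ` natural numbers, `C` a real
number, `F_1, ..., F_k` functions of the class `Bil`, `θ ≥ 0`, `τ ≤ 1`, `k (θ + 1 - τ) < 1`. There is `δ > 0` such that for all
large `N`, for all `m ∈ [1, N] ^ k` with `Two τ (m_i)` for all `i` but at most `N ^ (k - δ)` of them, for ALL tuples `s` with
`|s_i - F_i(m_i)| ≤ F_i(m_i) ^ θ` and `T ≤ s_i ≤ κ T`, every polynomial relation of degree at most `D` with integer coefficients
at most `C ^ T` between the values at the `w_i(s)` of a lift (for example the motivic multiple zeta values) holds for all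
families with the stuffle product and Euler's formula, if the fronts are even, and for all families with the stuffle product
and the relations between the real multiple zeta values of the fronts, in general. (2) In one variable, for every `ε > 0` there
is `θ > 0` such that for all `F` of the class `Bil`, all `C` and all large `N` this is true for ALL `m ≤ N` but at most `ε N` and
all integers `s ≥ 1` with `|s - F(m)| ≤ F(m) ^ θ`, with coefficients at most `C ^ s`. (3) The sum of the proper divisors, the
cototient, the arithmetic derivative and their positive combinations with the identity are in `Bil`. -/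
theorem result :
    (∀ (k r : ℕ), 1 ≤ k → ∀ w : Fin r → List (Letter k), (∀ i, AdmissiblePattern (w i)) → ∀ D : ℕ,
      ((∀ i, EvenFront (w i)) → Near (NotConsequence w D fun _ _ _ Z => EulerFormula Z)) ∧
      Near (NotConsequence w D fun _ _ _ Z => Transfers (fronts w) Z)) ∧
    (∀ (r : ℕ) (w : Fin r → List (Letter 1)), (∀ i, AdmissiblePattern (w i)) → ∀ D : ℕ,
      ((∀ i, EvenFront (w i)) → NearOne (NotConsequence w D fun _ _ _ Z => EulerFormula Z)) ∧
      NearOne (NotConsequence w D fun _ _ _ Z => Transfers (fronts w) Z)) ∧
    Bil aliquot ∧ Bil cototient ∧ Bil deriv ∧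
      (∀ α β : ℤ, (∀ m : ℕ, 2 ≤ m → 0 < α * m + β * sig m) → Bil (comb α β sig)) ∧
      (∀ α β : ℤ, (∀ m : ℕ, 2 ≤ m → 0 < α * m + β * Nat.totient m) → Bil (comb α β Nat.totient)) ∧
      ∀ α β : ℤ, (∀ m : ℕ, 2 ≤ m → 0 < α * m + β * deriv m) → Bil (comb α β deriv) := by
  refine ⟨fun k r hk w hw D => ⟨fun he => ?_, ?_⟩, fun r w hw D => ⟨fun he => ?_, ?_⟩, Run7.h527.TP.examples⟩
  · exact near hk (mono w D _) fun κ => (AlmostAllArguments.result k r w hw D κ).1 he
  · exact near hk (mono w D _) fun κ => (AlmostAllArguments.result k r w hw D κ).2
  · exact near_one (mono w D _) fun κ => (AlmostAllArguments.result 1 r w hw D κ).1 he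
  · exact near_one (mono w D _) fun κ => (AlmostAllArguments.result 1 r w hw D κ).2

end Pool.Agent.Results.MP_a57f33_nt.AliquotSums
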