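import Pool.Agent.Run7.h102.LS.Main

/-! # MP_a57f33_nt: an upper bound for the double shuffle Lie algebra in every depth

The question is whether `dm` is as small as the motivic Lie algebra contained in it. The theorem bounds the depth graded
pieces of `dm` from above, in every depth `r ≥ 4` and every weight `N`:
`dim gr^r (dm_N) ≤ 2 (N + r^2)^(r-1) / (r+2)!`.
In depth four this is `(N + 16)^3 / 360`, while the Broadhurst-Kreimer formula predicts `7 N^3 / 3456 = N^3 / 493.7…` for even `N`.

Proof. The part of depth `r` of an element of `dm` is a polynomial in `r` variables which satisfies the linearized double shuffle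
equations. The dimension of the space of these polynomials can only grow when one reduces them modulo 2. Modulo 2 the
linear forms `x_i`, `x_i + x_j`, `σ`, `σ + x_i` (`σ` the sum of the variables, in the coordinates in which the solution is written by
its differences) have a common fate: if `σ^k` divides a solution then so do the `k`-th powers of all these
`(r+1)(r+2)/2` forms. This and a similar statement for `r` forms on the hyperplane `σ = 0` bound the dimension by the number of
solutions of `c k + r j + a_1 + ⋯ + a_(r-2) = N - r`, `c = (r+1)(r+2)/2`. -/

set_option autoImplicit false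

namespace Pool.Agent.Results.MP_a57f33_nt.DepthUpperBound

open Pool.Agent.H777R4.DM

/-- Let `r ≥ 4` and let `ψ_1, …, ψ_m ∈ dm` be homogeneous of weight `N`, all of whose words have at least `r` letters `x₁`.
Suppose that they are linearly independent modulo the elements with at least `r + 1` letters `x₁`: if all coefficients of
`∑ c_i ψ_i` at words with exactly `r` letters `x₁` are zero, then all `c_i` are zero.
Then `(r + 2)! m ≤ 2 (N + r^2)^(r-1)`. -/
theorem result (r N m : ℕ) (hr : 4 ≤ r) (ψ : Fin m → A) (hdm : ∀ i, IsDM (ψ i))
    (hN : ∀ i u, co (ψ i) u ≠ 0 → u.length = N) (hdepth : ∀ i u, co (ψ i) u ≠ 0 → r ≤ u.count 1)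
    (hind : ∀ c : Fin m → ℚ, (∀ u : List (Fin 2), u.count 1 = r → co (∑ i, c i • ψ i) u = 0) → c = 0) :
    (r + 2).factorial * m ≤ 2 * (N + r ^ 2) ^ (r - 1) :=
  Run7.h102.LS.dm_bound hr ψ hdm hN hdepth hind

end Pool.Agent.Results.MP_a57f33_nt.DepthUpperBound
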