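import Pool.Agent.Run7.h467.GA.One
import Pool.Agent.Results.MP_a57f33_nt.AlmostAllArguments

/-!
# MP_a57f33_nt: at the entries of all good rational approximations, relations between motivic multiple zeta values follow from
# the stuffle product and Euler's formula

A pattern in `k` variables is a nonempty list of letters `b + u_1 s_1 + ... + u_k s_k`; at a tuple `s` of natural numbers
it gives an index. The first letters may be constant, such as in `ζ(2, 2, 2, s_1, 3, s_1 + s_2)`.

A lift of the real multiple zeta values is a function `Y` from the indices to a commutative `ℚ`-algebra `M` with a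
homomorphism `M → ℝ` which maps `Y(u)` to `ζ(u)`: for example the motivic multiple zeta values, with the period map, and the
real multiple zeta values themselves. A relation between the `Y(w_i(s))` is a consequence of the stuffle product and of
Euler's formula if it holds for every function `Z` from the indices to a commutative `ℚ`-algebra which satisfies the stuffle
product formula and the relations `Z(2 m) = c_m Z(2)^m`, where `c_m` is the rational number with `ζ(2 m) = c_m ζ(2)^m`.
Both are consequences of the regularized double shuffle relations; so such relations are also consequences of the regularized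
double shuffle relations, as the question predicts.

Let `α` be a point of `ℝ ^ d`, and let `(p, q)`, `p ∈ ℤ ^ d`, run through its approximations with
`|α_i - p_i / q| ≤ c q ^ (-1-σ)`; by Dirichlet's theorem there are infinitely many for `σ = 1 / d`, `c = 1`, for every `α`.
We consider ALL tuples `s` of `k ≤ d + 1` natural numbers of the same order of magnitude which are small linearly independent
combinations `u_j · p + v_j q` of the entries of such an approximation, up to small errors: with coefficients at most
`c q ^ η` and errors at most `c q ^ θ`. For example `s = (q, p_1, ..., p_d)` or `s = (p_1, ..., p_d)`, with errors at most `c`.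

Theorem. (1) Let the constant first letters of each pattern be equal and even (or let there be none). For all `α` but a set of
Hausdorff dimension at most `(d + (k (d + 2) - 1) η + k θ) / (1 + σ)`, for all such patterns in `k` variables and all `D`, `C`,
`c`, for all but finitely many `(p, q)` and all these tuples `s`: every polynomial relation of degree at most `D` with integer
coefficients at most `C ^ q` between the values `Y(w_i(s))` of a lift `Y` is a consequence of the stuffle product and of
Euler's formula. For `σ = 1 / d` the bound is smaller than `d` if `(k (d + 2) - 1) η + k θ < 1`; it is `d ^ 2 / (d + 1)` for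
`η = θ = 0`.
(2) For arbitrary admissible patterns every such relation is a consequence of the stuffle product and of the relations
between the real multiple zeta values of the (finitely many, fixed) fronts, the nonempty initial segments of the lists of the
constant first letters of the patterns.

`AlmostAllArguments` bounds the number of the exceptional tuples in `[N, κ N] ^ k` by `K N ^ (k - 1)`. This does not exclude
exceptional tuples near all directions. The good approximations are a very thin set of vectors; the size of the set of the
exceptional `α` is estimated by the Hausdorff-Cantelli lemma, after a count of the vectors `(q, p)` for which some independent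
small forms are near an exceptional tuple (`Pool.Agent.Run7.h467.GA`).
-/

set_option autoImplicit false

open Filter MeasureTheory

namespace Pool.Agent.Results.MP_a57f33_nt.GoodApproximations

open Pool.Agent.Results.MP_03df5c_nt.AlmostAllArguments (Letter AdmissiblePattern fronts EvenFront Transfers)
open AlmostAllArguments (NotConsequence EulerFormula)

/-- The members of the tuple `s` are at distance at most `c q ^ θ` from the values `u_j · p + v_j q` of linearly independent
integral linear forms with coefficients at most `c q ^ η`. -/
def NearForms {d k : ℕ} (η θ c : ℝ) (p : Fin d → ℤ) (q : ℕ) (s : Fin k → ℕ) : Prop :=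
  ∃ (u : Fin k → Fin d → ℤ) (v : Fin k → ℤ),
    (∀ a : Fin k → ℤ, (∀ i, ∑ j, a j * u j i = 0) → ∑ j, a j * v j = 0 → a = 0) ∧
    (∀ j i, |(u j i : ℝ)| ≤ c * (q : ℝ) ^ η) ∧ (∀ j, |(v j : ℝ)| ≤ c * (q : ℝ) ^ η) ∧
    ∀ j, |(s j : ℝ) - (∑ i, (u j i : ℝ) * p i + v j * q)| ≤ c * (q : ℝ) ^ θ

/-- For all `C`, `c` and all but finitely many approximations `(p, q)` of `α` with `|α_i - p_i / q| ≤ c q ^ (-1-σ)` the property
`E (C ^ q)` fails for all tuples `s` of natural numbers near independent small forms in `(p, q)`, with `s_i ≤ c s_j` and
`q ≤ c s_j` for all `i`, `j`. -/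
def Holds {d k : ℕ} (σ η θ : ℝ) (E : ℝ → (Fin k → ℕ) → Prop) (α : Fin d → ℝ) : Prop :=
  ∀ C c : ℝ, ∃ Q : ℕ, ∀ (p : Fin d → ℤ) (q : ℕ), Q ≤ q → (∀ i, |α i - p i / q| ≤ c / (q : ℝ) ^ (1 + σ)) →
    ∀ s : Fin k → ℕ, (∀ i j, (s i : ℝ) ≤ c * s j) → (∀ j, (q : ℝ) ≤ c * s j) → NearForms η θ c p q s → ¬ E (C ^ q) s

/-- Let `E w D H s` be a property of tuples, for patterns `w` in `k` variables. For all `k ≥ 1`, `d`, `σ`, `η`, `θ` the set of
the `α` in `ℝ ^ d` for which `Holds` fails for some admissible patterns in `k` variables with the property `A` and some `D`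
has Hausdorff dimension at most `(d + (k (d + 2) - 1) η + k θ) / (1 + σ)`. -/
def Small (A : ∀ k r : ℕ, (Fin r → List (Letter k)) → Prop)
    (E : ∀ k r : ℕ, (Fin r → List (Letter k)) → ℕ → ℝ → (Fin k → ℕ) → Prop) : Prop :=
  ∀ (k : ℕ), 1 ≤ k → ∀ (d : ℕ) (σ η θ : ℝ), 0 ≤ σ → 0 ≤ η → 0 ≤ θ → θ ≤ 1 →
    dimH {α : Fin d → ℝ | ∃ (r : ℕ) (w : Fin r → List (Letter k)) (D : ℕ), (∀ i, AdmissiblePattern (w i)) ∧ A k r w ∧
      ¬ Holds σ η θ (E k r w D) α} ≤ ENNReal.ofReal ((d + (k * (d + 2) - 1) * η + k * θ) / (1 + σ))

lemma mono {k r : ℕ} (w : Fin r → List (Letter k)) (D : ℕ)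
    (F : ∀ (A : Type) [CommRing A] [Algebra ℚ A], (List ℕ → A) → Prop) (H H' : ℝ) (s : Fin k → ℕ) (h : H ≤ H')
    (hB : NotConsequence w D F H s) : NotConsequence w D F H' s := by
  obtain ⟨M, i1, i2, Y, A, i3, i4, Z, h1, h2, h3, P, h4, h5, h6⟩ := hB
  exact ⟨M, i1, i2, Y, A, i3, i4, Z, h1, h2, h3, P, h4, fun m => (h5 m).trans h, h6⟩

lemma small_of (A : ∀ k r : ℕ, (Fin r → List (Letter k)) → Prop)
    (E : ∀ k r : ℕ, (Fin r → List (Letter k)) → ℕ → ℝ → (Fin k → ℕ) → Prop)
    (hE : ∀ k r w D H H' s, H ≤ H' → E k r w D H s → E k r w D H' s)
    (h : ∀ k r (w : Fin r → List (Letter k)), (∀ i, AdmissiblePattern (w i)) → A k r w → ∀ D κ : ℕ,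
      ∃ K : ℕ, ∀ C : ℝ, ∃ N₀ : ℕ, ∀ N : ℕ, N₀ ≤ N →
        {s : Fin k → ℕ | (∀ j, N ≤ s j ∧ s j ≤ κ * N) ∧ E k r w D (C ^ N) s}.ncard ≤ K * N ^ (k - 1)) : Small A E := by
  intro k hk d σ η θ hσ hη hθ hθ1
  have h1 := Run7.h467.GA.metric hk (I := Σ r : ℕ, (Fin r → List (Letter k)) × ℕ)
    (fun i => (∀ j, AdmissiblePattern (i.2.1 j)) ∧ A k i.1 i.2.1) (fun i => E k i.1 i.2.1 i.2.2)
    (fun i H H' s => hE k i.1 i.2.1 i.2.2 H H' s) (fun i hi κ => h k i.1 i.2.1 hi.1 hi.2 i.2.2 κ)
    d hσ hη hθ hθ1
  refine (dimH_mono ?_).trans h1
  rintro α ⟨r, w, D, hw, hA, hH⟩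
  exact ⟨⟨r, w, D⟩, ⟨hw, hA⟩, hH⟩

/-- **Theorem.** For all `k ≥ 1`, `d`, `σ`, `η`, `θ` the points `α` of `ℝ ^ d` with the following property form a set of
Hausdorff dimension at most `(d + (k (d + 2) - 1) η + k θ) / (1 + σ)`: for some admissible patterns in `k` variables, some `D`
and some `C`, `c` there are infinitely many `(p, q)` with `|α_i - p_i / q| ≤ c q ^ (-1-σ)` for which, for a tuple `s` of
comparable numbers near independent small forms in `(p, q)`, a polynomial relation of degree at most `D` with integer
coefficients at most `C ^ q` holds between the values `Y(w_i(s))` of a lift `Y` of the real multiple zeta values (for example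
the motivic ones), and fails for a family `Z` with the stuffle product (1) and Euler's formula, if all constant first letters
of each pattern are equal and even, (2) and the relations between the real multiple zeta values of the fronts, for arbitrary
patterns. -/
theorem result :
    (Small (fun _ _ w => ∀ i, EvenFront (w i)) fun _ _ w D => NotConsequence w D fun _ _ _ Z => EulerFormula Z) ∧
    (Small (fun _ _ _ => True) fun _ _ w D => NotConsequence w D fun _ _ _ Z => Transfers (fronts w) Z) :=
  ⟨small_of _ _ (fun _ _ w D H H' s => mono w D _ H H' s)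
      fun k r w hw he D κ => (AlmostAllArguments.result k r w hw D κ).1 he,
    small_of _ _ (fun _ _ w D H H' s => mono w D _ H H' s)
      fun k r w hw _ D κ => (AlmostAllArguments.result k r w hw D κ).2⟩

end Pool.Agent.Results.MP_a57f33_nt.GoodApproximations
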