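import Pool.Agent.Run7.h430.TO.Scales
import Pool.Agent.Results.MP_a57f33_nt.AlmostAllArguments

/-!
# MP_a57f33_nt: relations between motivic multiple zeta values near tuples of orbits of Euler's function

A pattern in `k` variables is a nonempty list of letters `b + u_1 s_1 + ... + u_k s_k`; at a tuple `s` of natural numbers
it gives an index. The first letters may be constant, such as in `ζ(2, 2, 2, s_1, 3, s_1 + s_2)`. A lift of the real multiple
zeta values is a function `Y` from the indices to a commutative `ℚ`-algebra `M` with a homomorphism `M → ℝ` which maps `Y(u)` to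
`ζ(u)`: for example the motivic multiple zeta values. A relation between the `Y(w_i(s))` is a consequence of the stuffle product
and of Euler's formula if it holds for every function `Z` from the indices to a commutative `ℚ`-algebra which satisfies the
stuffle product formula and the relations `Z(2 m) = c_m Z(2)^m`, where `ζ(2 m) = c_m ζ(2)^m`; both follow from the regularized
double shuffle relations, so such relations follow from them, as the question predicts.

Let `φ_j` be the `j`-th iterate of Euler's function, `φ_0(m) = m`, let `F_1, ..., F_k` be positive multiplicative functions of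
the order `m ^ (1 + o(1))` with `F_i p ≤ M p` for the large primes `p` and different values at different large primes, for
example the identity, Euler's function or the sum of the divisors, and let `0 ≤ θ`, `k θ < 1`.

Theorem. Let `w_1, ..., w_r` be admissible patterns in `k ≥ 1` variables, `D`, `κ` natural numbers, `C` real. There is `K(N)`
tending to infinity such that for all but `o(N ^ k)` of the `m ∈ [1, N] ^ k`, for ALL tuples `s` near the orbits of `m`,
`|s_i - a_i F_i(φ_{j_i}(m_i))| ≤ N ^ θ` for some iterates `j_i ≤ K(N)` and multiples `1 ≤ a_i ≤ K(N)`, in a cone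
`T ≤ s_i ≤ κ T`, every polynomial relation of degree at most `D` with integer coefficients at most `C ^ T` between the values
`Y(w_i(s))` of a lift `Y` is a consequence (1) of the stuffle product and of Euler's formula, if all the constant first letters
of each pattern are equal and even, or there are none; (2) of the stuffle product and of the relations between the real multiple
zeta values of the (finitely many, fixed) constant fronts, for arbitrary patterns.

The iterates of Euler's function are not multiplicative; the values along the orbits form a thin set and are taken with very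
large multiplicities. So this does not follow from the number of the bad tuples (`AlmostAllArguments`: at most `K N ^ (k - 1)` in
`[N, κ N] ^ k`), which is used. The tool is `Pool.Agent.N760.IT` (one orbit), transferred to tuples of orbits, with multiples and
windows, in `Run7/h430/TO`.
-/

set_option autoImplicit false

namespace Pool.Agent.Results.MP_a57f33_nt.TotientOrbits

open Filter Topology
open Pool.Agent.Results.MP_03df5c_nt.AlmostAllArguments (Letter AdmissiblePattern fronts EvenFront Transfers Few)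
open Pool.Agent.Results.MP_a57f33_nt.AlmostAllArguments (NotConsequence EulerFormula)

/-- A positive multiplicative function of at most polynomial growth, at most `M p` at the large primes `p` and with different
values at different large primes, and equal to `m ^ (1 + o(1))` for all `m`. -/
structure Moderate (f : ℕ → ℕ) : Prop where
  mul : ∀ m n : ℕ, Nat.Coprime m n → f (m * n) = f m * f n
  pos : ∀ m : ℕ, 1 ≤ m → 1 ≤ f m
  growth : ∃ C D : ℕ, ∀ m : ℕ, 1 ≤ m → f m ≤ C * m ^ D
  prime : ∃ P M : ℕ, ∀ p : ℕ, P ≤ p → p.Prime → f p ≤ M * p ∧ ∀ q : ℕ, P ≤ q → q.Prime → f q = f p → q = p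
  order : ∀ ε : ℝ, 0 < ε → ∃ C : ℝ, 1 ≤ C ∧ ∀ m : ℕ, 1 ≤ m → (m : ℝ) ^ (1 - ε) ≤ C * f m ∧ (f m : ℝ) ≤ C * (m : ℝ) ^ (1 + ε)

/-- the value of `f` at the `j`-th iterate of Euler's function -/
def orb (f : ℕ → ℕ) (j m : ℕ) : ℕ := f (Nat.totient^[j] m)

/-- the tuple `t` of positive integers is within `w` of a tuple of multiples `a i F i (φ_{j i} (m i))`, `j i, a i ≤ J` -/
def Near {k : ℕ} (F : Fin k → ℕ → ℕ) (J : ℕ) (w : ℝ) (m t : Fin k → ℕ) : Prop :=
  ∃ j a : Fin k → ℕ, (∀ i, j i ≤ J) ∧ (∀ i, 1 ≤ a i ∧ a i ≤ J) ∧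
    ∀ i, 1 ≤ t i ∧ |(t i : ℝ) - a i * orb (F i) (j i) (m i)| ≤ w

theorem lm_of {f : ℕ → ℕ} (hf : Moderate f) : Pool.Agent.N733.TG.LM f := ⟨hf.mul, hf.pos, hf.growth, hf.prime⟩

theorem of_lm {f : ℕ → ℕ} (hf : Pool.Agent.N733.TG.LM f) (hl : Run7.h430.TO.Lin f) : Moderate f :=
  ⟨hf.mul, hf.pos, hf.growth, hf.prime, hl⟩

theorem moderate_examples : Moderate (fun m => m) ∧ Moderate Nat.totient ∧ Moderate (fun m => ∑ d ∈ m.divisors, d) :=
  ⟨of_lm Pool.Agent.N760.IT.lm_id Run7.h430.TO.lin_id, of_lm Pool.Agent.N733.TG.lm_totient Run7.h430.TO.lin_totient,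
    of_lm Pool.Agent.N733.TG.lm_sigma Run7.h430.TO.lin_sigma⟩

/-- There is `K(N)` tending to infinity such that for all but `o(N ^ k)` of the tuples `m ∈ [1, N] ^ k` the property
`E (C ^ T)` fails for ALL tuples `s` with `|s_i - a_i F_i(φ_{j_i}(m_i))| ≤ N ^ θ` for some `j_i ≤ K(N)`, `1 ≤ a_i ≤ K(N)`,
`s_i ≥ 1`, and `T ≤ s_i ≤ κ T`, `T ≥ 1`. -/
def NoneNear {k : ℕ} (κ : ℕ) (C : ℝ) (F : Fin k → ℕ → ℕ) (θ : ℝ) (E : ℝ → (Fin k → ℕ) → Prop) : Prop :=
  ∃ K : ℕ → ℕ, Tendsto K atTop atTop ∧ ∀ ε : ℝ, 0 < ε → ∃ N₀ : ℕ, ∀ N : ℕ, N₀ ≤ N →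
    ({m : Fin k → ℕ | (∀ i, 1 ≤ m i ∧ m i ≤ N) ∧ ∃ (s : Fin k → ℕ) (T : ℕ), Near F (K N) ((N : ℝ) ^ θ) m s ∧
      1 ≤ T ∧ (∀ i, T ≤ s i ∧ s i ≤ κ * T) ∧ E (C ^ T) s}.ncard : ℝ) ≤ ε * (N : ℝ) ^ k

lemma pow_bound (C : ℝ) {N T : ℕ} (h : T ≤ 2 * N) : C ^ T ≤ ((max |C| 1) ^ 2) ^ N := by
  have h5 : (1 : ℝ) ≤ max |C| 1 := le_max_right _ _
  calc C ^ T ≤ |C ^ T| := le_abs_self _
    _ = |C| ^ T := abs_pow C T
    _ ≤ (max |C| 1) ^ T := pow_le_pow_left₀ (abs_nonneg C) (le_max_left _ _) T
    _ ≤ (max |C| 1) ^ (2 * N) := pow_le_pow_right₀ h5 h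
    _ = _ := pow_mul _ _ _

lemma none_of_few {k : ℕ} (hk : 1 ≤ k) (κ : ℕ) (C : ℝ) {F : Fin k → ℕ → ℕ} (hF : ∀ i, Moderate (F i)) {θ : ℝ} (hθ : 0 ≤ θ)
    (hθk : k * θ < 1) {E : ℝ → (Fin k → ℕ) → Prop} (hE : ∀ H H' s, H ≤ H' → E H s → E H' s)
    (h : Few (2 * κ) E) : NoneNear κ C F θ E := by
  obtain ⟨K, hK⟩ := h
  obtain ⟨N₁, hN₁⟩ := hK ((max |C| 1) ^ 2)
  exact Run7.h430.TO.orb_scales hk κ (fun T s => E (C ^ T) s)
    (fun N s => E (((max |C| 1) ^ 2) ^ N) s)
    (fun N T s h1 h2 h3 => hE _ _ s (pow_bound C h2.le) h3)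
    ⟨K, N₁, fun N hN => hN₁ N hN⟩ (fun i => lm_of (hF i)) (fun i => (hF i).order) hθ hθk

lemma mono {k r : ℕ} (w : Fin r → List (Letter k)) (D : ℕ)
    (F : ∀ (A : Type) [CommRing A] [Algebra ℚ A], (List ℕ → A) → Prop) (H H' : ℝ) (s : Fin k → ℕ) (h : H ≤ H')
    (hB : NotConsequence w D F H s) : NotConsequence w D F H' s := by
  obtain ⟨M, i1, i2, Y, A, i3, i4, Z, h1, h2, h3, P, h4, h5, h6, h7⟩ := hB
  exact ⟨M, i1, i2, Y, A, i3, i4, Z, h1, h2, h3, P, h4, fun m => (h5 m).trans h, h6, h7⟩

/-- **Theorem.** Let `w_1, ..., w_r` be admissible patterns in `k ≥ 1` variables, `D`, `κ` natural numbers, `C` a real number,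
`F_1, ..., F_k` `Moderate` and `θ ≥ 0`, `k θ < 1`. For almost all `m ∈ [1, N] ^ k` no tuple `s` near the orbits of `m` (iterates and
multiples up to `K(N)`, windows `N ^ θ`) with `T ≤ s_i ≤ κ T` has the following property: a polynomial relation of degree at most
`D` with integer coefficients of absolute value at most `C ^ T` holds between the values `Y(w_i(s))` of a lift `Y` of the real
multiple zeta values (for example the motivic ones), and fails for a family `Z` with the stuffle product (1) and Euler's formula,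
if all constant first letters of each pattern are equal and even, (2) and the relations between the real multiple zeta values of
the fronts, for arbitrary patterns. The identity, Euler's function and the sum of the divisors are `Moderate`. -/
theorem result :
    (∀ (k r : ℕ), 1 ≤ k → ∀ w : Fin r → List (Letter k), (∀ i, AdmissiblePattern (w i)) → ∀ (D κ : ℕ) (C : ℝ)
      (F : Fin k → ℕ → ℕ), (∀ i, Moderate (F i)) → ∀ θ : ℝ, 0 ≤ θ → k * θ < 1 →
      ((∀ i, EvenFront (w i)) → NoneNear κ C F θ (NotConsequence w D fun _ _ _ Z => EulerFormula Z)) ∧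
      NoneNear κ C F θ (NotConsequence w D fun _ _ _ Z => Transfers (fronts w) Z)) ∧
    (Moderate (fun m => m) ∧ Moderate Nat.totient ∧ Moderate (fun m => ∑ d ∈ m.divisors, d)) := by
  refine ⟨fun k r hk w hw D κ C F hF θ hθ hθk => ⟨fun he => ?_, ?_⟩, moderate_examples⟩
  · exact none_of_few hk κ C hF hθ hθk (fun H H' s => mono w D _ H H' s)
      ((AlmostAllArguments.result k r w hw D (2 * κ)).1 he)
  · exact none_of_few hk κ C hF hθ hθk (fun H H' s => mono w D _ H H' s)
      (AlmostAllArguments.result k r w hw D (2 * κ)).2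

end Pool.Agent.Results.MP_a57f33_nt.TotientOrbits
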